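import Pool.Agent.Helper13.MP.Defs
import Pool.Agent.Helper59.M.NR
import Pool.Agent.Helper17.FF.Approx
import Pool.Agent.Helper17.FF.Const

/-!
# Project MP, block BIJ: the geometric branch points are the branch places of `L0`

A place `b` of `L0 = E K0` is determined by the valuation ring `b ∩ K0` and the residue map on it: the
coefficients of `y = ∑ a i * w i`, `a i ∈ K0`, `w` a basis of a finite Galois extension of `k`, are
linear combinations of the conjugates of `y`. Every valuation ring of `K0` with an embedding of its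
residue field in `E` comes from a place, and the places are unramified over `K0`.
-/

set_option autoImplicit false

namespace Pool.Agent.MP

open VC IntermediateField NumberField IsDedekindDomain Pool.Agent.SC Pool.Agent.L Pool.Agent.M

noncomputable section

section

variable {k K0 E U : Type} [Field k] [Field K0] [Field E] [Field U] [Algebra k K0]
    [Algebra k E] [Algebra E U] [Algebra K0 U] {r : U} {c : k}
    {Φ : (E ≃ₐ[k] E) →* (U ≃+* U)}

/-- the inclusion of `K0` in `L0` -/
def jj (E K0 U : Type) [Field E] [Field K0] [Field U] [Algebra E U] [Algebra K0 U] :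
    K0 →+* L0 E K0 (U := U) :=
  (algebraMap K0 U).codRestrict (L0 E K0 (U := U)).toSubfield fun x =>
    subset_adjoin _ _ ⟨x, rfl⟩

theorem jj_eq (x : K0) : jj E K0 U x = inL0 x := rfl

theorem coe_jj (x : K0) : ((jj E K0 U x : L0 E K0 (U := U)) : U) = algebraMap K0 U x := rfl

theorem res_jj (hΦ : Act (K0 := K0) r c Φ) (g : E ≃ₐ[k] E) (x : K0) :
    res59 hΦ g (jj E K0 U x) = jj E K0 U x := res59_inL0 hΦ g x

theorem res_alg (hΦ : Act (K0 := K0) r c Φ) (g : E ≃ₐ[k] E) (a : E) :
    res59 hΦ g (algebraMap E (L0 E K0 (U := U)) a) = algebraMap E (L0 E K0 (U := U)) (g a) :=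
  res59_const hΦ g a

theorem jj_const [Algebra k U] [IsScalarTower k E U] [IsScalarTower k K0 U] (a : k) :
    jj E K0 U (algebraMap k K0 a) = algebraMap E (L0 E K0 (U := U)) (algebraMap k E a) := by
  apply Subtype.ext
  change algebraMap K0 U (algebraMap k K0 a) = algebraMap E U (algebraMap k E a)
  rw [← IsScalarTower.algebraMap_apply k K0 U, ← IsScalarTower.algebraMap_apply k E U]

/-! ### the trace formula -/

/-- the sum `∑ a m * w m` -/
def lin (L : IntermediateField k E) {ι : Type} [Fintype ι] (w : Module.Basis ι k L) (a : ι → K0) :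
    L0 E K0 (U := U) :=
  ∑ m, jj E K0 U (a m) * algebraMap E (L0 E K0 (U := U)) ((w m : L) : E)

/-- **The coefficients are combinations of the conjugates.** -/
theorem trace_formula [Algebra k U] [IsScalarTower k E U] [IsScalarTower k K0 U]
    (hΦ : Act (K0 := K0) r c Φ) [Normal k E] (L : IntermediateField k E)
    [FiniteDimensional k L] [IsGalois k L] {ι : Type} [Fintype ι] [DecidableEq ι]
    (w : Module.Basis ι k L) (a : ι → K0) (i : ι) :
    jj E K0 U (a i) = ∑ σ : L ≃ₐ[k] L,
      algebraMap E (L0 E K0 (U := U)) ((σ (w.traceDual i) : L) : E) *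
        res59 hΦ (σ.liftNormal E) (lin L w a) := by
  have h1 : ∀ σ : L ≃ₐ[k] L, res59 hΦ (σ.liftNormal E) (lin L w a) =
      ∑ m, jj E K0 U (a m) * algebraMap E (L0 E K0 (U := U)) ((σ (w m) : L) : E) := by
    intro σ
    unfold lin
    rw [map_sum]
    refine Finset.sum_congr rfl fun m _ => ?_
    rw [map_mul, res_jj, res_alg]
    congr 2
    exact σ.liftNormal_commutes E (w m)
  have h2 : ∀ m, ∑ σ : L ≃ₐ[k] L, algebraMap E (L0 E K0 (U := U)) ((σ (w.traceDual i) : L) : E) *
      (jj E K0 U (a m) * algebraMap E (L0 E K0 (U := U)) ((σ (w m) : L) : E)) =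
      if m = i then jj E K0 U (a m) else 0 := by
    intro m
    have h3 : ∑ σ : L ≃ₐ[k] L, ((σ (w.traceDual i) : L) : E) * ((σ (w m) : L) : E) =
        if m = i then 1 else 0 := by
      have h4 := trace_eq_sum_automorphisms (K := k) (L := L) (w.traceDual i * w m)
      rw [Module.Basis.trace_traceDual_mul] at h4
      have h5 := congrArg (algebraMap L E) h4
      rw [map_sum] at h5
      have h6 : ∀ σ : L ≃ₐ[k] L, algebraMap L E (σ (w.traceDual i * w m)) =
          ((σ (w.traceDual i) : L) : E) * ((σ (w m) : L) : E) := by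
        intro σ
        rw [map_mul, map_mul]
        rfl
      simp only [h6] at h5
      rw [← h5]
      split_ifs
      · rw [map_one, map_one]
      · rw [map_zero, map_zero]
    have h7 : ∀ σ : L ≃ₐ[k] L, algebraMap E (L0 E K0 (U := U)) ((σ (w.traceDual i) : L) : E) *
        (jj E K0 U (a m) * algebraMap E (L0 E K0 (U := U)) ((σ (w m) : L) : E)) =
        jj E K0 U (a m) * algebraMap E (L0 E K0 (U := U))
          (((σ (w.traceDual i) : L) : E) * ((σ (w m) : L) : E)) := by
      intro σ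
      rw [map_mul]
      ring
    simp only [h7]
    rw [← Finset.mul_sum, ← map_sum, h3]
    split_ifs
    · rw [map_one, mul_one]
    · rw [map_zero, mul_zero]
  simp only [h1, Finset.mul_sum]
  rw [Finset.sum_comm]
  simp only [h2]
  rw [Finset.sum_ite_eq' Finset.univ i]
  simp

/-- linear disjointness -/
theorem coef_zero [Algebra k U] [IsScalarTower k E U] [IsScalarTower k K0 U]
    (hΦ : Act (K0 := K0) r c Φ) [Normal k E] (L : IntermediateField k E)
    [FiniteDimensional k L] [IsGalois k L] {ι : Type} [Fintype ι] [DecidableEq ι]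
    (w : Module.Basis ι k L) (a : ι → K0) (h : lin (U := U) L w a = 0) (i : ι) : a i = 0 := by
  have h1 := trace_formula hΦ L w a i
  rw [h] at h1
  simp only [map_zero, mul_zero, Finset.sum_const_zero] at h1
  exact (map_eq_zero _).1 h1

/-! ### every element of `L0` is such a sum -/

theorem exists_finsupp (hn : Normal K0 U) (y : L0 E K0 (U := U)) :
    ∃ f : E →₀ K0, (y : U) = f.sum fun e x => algebraMap K0 U x * algebraMap E U e := by
  have halg : Algebra.IsAlgebraic K0 U := hn.toIsAlgebraic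
  obtain ⟨y, hy0⟩ := y
  let S : Subalgebra K0 U := Algebra.adjoin K0 (Set.range (algebraMap E U))
  have hy : y ∈ S := by
    have h1 : y ∈ IntermediateField.adjoin E (Set.range (algebraMap K0 U)) := hy0
    clear hy0
    induction h1 using IntermediateField.adjoin_induction with
    | mem x hx =>
      obtain ⟨z, rfl⟩ := hx
      exact S.algebraMap_mem z
    | algebraMap e => exact Algebra.subset_adjoin ⟨e, rfl⟩
    | add x y _ _ hx hy => exact S.add_mem hx hy
    | inv x _ hx =>
      exact S.inv_mem_of_algebraic (x := ⟨x, hx⟩) (Algebra.IsAlgebraic.isAlgebraic x)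
    | mul x y _ _ hx hy => exact S.mul_mem hx hy
  have h2 : y ∈ Submodule.span K0 (Set.range (algebraMap E U)) := by
    have h3 : y ∈ Subalgebra.toSubmodule S := hy
    rw [Algebra.adjoin_eq_span] at h3
    have h4 : (Submonoid.closure (Set.range (algebraMap E U)) : Set U) ⊆
        Set.range (algebraMap E U) := by
      have h5 : Submonoid.closure (Set.range (algebraMap E U)) ≤
          MonoidHom.mrange (algebraMap E U).toMonoidHom := by
        rw [Submonoid.closure_le]
        rintro _ ⟨e, rfl⟩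
        exact ⟨e, rfl⟩
      intro x hx
      obtain ⟨e, he⟩ := h5 hx
      exact ⟨e, he⟩
    exact Submodule.span_mono h4 h3
  rw [Finsupp.mem_span_range_iff_exists_finsupp] at h2
  obtain ⟨f, hf⟩ := h2
  refine ⟨f, hf.symm.trans ?_⟩
  refine Finsupp.sum_congr fun e _ => ?_
  rw [Algebra.smul_def]

/-- finitely many constants are in the span of a basis of a finite Galois extension -/
theorem exists_basis [IsGalois k E] (s : Finset E) :
    ∃ (L : IntermediateField k E) (_ : FiniteDimensional k L) (_ : IsGalois k L) (n : ℕ)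
      (w : Module.Basis (Fin n) k L) (t : E → Fin n → k),
      ∀ e ∈ s, e = ∑ m, algebraMap k E (t e m) * ((w m : L) : E) := by
  classical
  let G := FiniteGaloisIntermediateField.adjoin k (s : Set E)
  let L : IntermediateField k E := G.toIntermediateField
  have hL1 : FiniteDimensional k L := inferInstanceAs (FiniteDimensional k G)
  have hL2 : IsGalois k L := inferInstanceAs (IsGalois k G)
  have hL : ∀ e ∈ s, e ∈ L := fun e he =>
    FiniteGaloisIntermediateField.subset_adjoin k (s : Set E) he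
  let w := Module.finBasis k L
  refine ⟨L, hL1, hL2, _, w, fun e m => if h : e ∈ L then w.repr ⟨e, h⟩ m else 0, fun e he => ?_⟩
  have h2 := w.sum_repr ⟨e, hL e he⟩
  have h3 := congrArg (fun z : L => (z : E)) h2
  simp only at h3
  conv_lhs => rw [← h3]
  rw [IntermediateField.coe_sum]
  refine Finset.sum_congr rfl fun m _ => ?_
  beta_reduce
  rw [dif_pos (hL e he), IntermediateField.coe_smul, Algebra.smul_def]

theorem lin_eq [Algebra k U] [IsScalarTower k E U] [IsScalarTower k K0 U]
    (L : IntermediateField k E) {n : ℕ} (w : Module.Basis (Fin n) k L) {ι : Type} (s : Finset ι)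
    (e : ι → E) (x : ι → K0) (t : ι → Fin n → k)
    (h : ∀ i ∈ s, e i = ∑ m, algebraMap k E (t i m) * ((w m : L) : E)) :
    ∑ i ∈ s, jj E K0 U (x i) * algebraMap E (L0 E K0 (U := U)) (e i) =
      lin L w fun m => ∑ i ∈ s, x i * algebraMap k K0 (t i m) := by
  unfold lin
  have h1 : ∀ m, jj E K0 U (∑ i ∈ s, x i * algebraMap k K0 (t i m)) *
      algebraMap E (L0 E K0 (U := U)) ((w m : L) : E) =
      ∑ i ∈ s, jj E K0 U (x i) *
        algebraMap E (L0 E K0 (U := U)) (algebraMap k E (t i m) * ((w m : L) : E)) := by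
    intro m
    rw [map_sum, Finset.sum_mul]
    refine Finset.sum_congr rfl fun i _ => ?_
    rw [map_mul, map_mul, jj_const, mul_assoc]
  simp only [h1]
  rw [Finset.sum_comm]
  refine Finset.sum_congr rfl fun i hi => ?_
  rw [← Finset.mul_sum, ← map_sum, ← h i hi]

theorem exists_sum (hn : Normal K0 U) (y : L0 E K0 (U := U)) :
    ∃ f : E →₀ K0, y = ∑ e ∈ f.support, jj E K0 U (f e) * algebraMap E (L0 E K0 (U := U)) e := by
  obtain ⟨f, hf⟩ := exists_finsupp hn y
  refine ⟨f, Subtype.ext ?_⟩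
  rw [hf]
  change _ = (L0 E K0 (U := U)).val _
  rw [map_sum]
  rfl

theorem exists_decomp [Algebra k U] [IsScalarTower k E U] [IsScalarTower k K0 U]
    (hn : Normal K0 U) [IsGalois k E] (y : L0 E K0 (U := U)) :
    ∃ (L : IntermediateField k E) (_ : FiniteDimensional k L) (_ : IsGalois k L) (n : ℕ)
      (w : Module.Basis (Fin n) k L) (a : Fin n → K0), y = lin L w a := by
  obtain ⟨f, hf⟩ := exists_sum hn y
  obtain ⟨L, hL1, hL2, n, w, t, ht⟩ := exists_basis (k := k) f.support
  refine ⟨L, hL1, hL2, n, w, fun m => ∑ e ∈ f.support, f e * algebraMap k K0 (t e m), ?_⟩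
  conv_lhs => rw [hf]
  exact lin_eq L w f.support (fun e => e) f t ht

/-! ### places -/

/-- the coefficients have the properties of the conjugates -/
theorem coef_mem [Algebra k U] [IsScalarTower k E U] [IsScalarTower k K0 U]
    (hΦ : Act (K0 := K0) r c Φ) [Normal k E] {S : Finset (Place E (L0 E K0 (U := U)))}
    (hS : ∀ Q ∈ S, ∀ g, mv59 hΦ g Q ∈ S) (L : IntermediateField k E) [FiniteDimensional k L]
    [IsGalois k L] {ι : Type} [Fintype ι] [DecidableEq ι] (w : Module.Basis ι k L) (a : ι → K0)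
    (hy : ∀ Q ∈ S, lin L w a ∈ Q.ring) : ∀ Q ∈ S, ∀ i, jj E K0 U (a i) ∈ Q.ring := by
  intro Q hQ i
  rw [trace_formula hΦ L w a i]
  refine sum_mem fun σ _ => Q.ring.mul_mem _ _ (Q.algebraMap_mem _) ?_
  have h1 := hy _ (hS Q hQ (σ.liftNormal E)⁻¹)
  have h2 : lin L w a = res59 hΦ (σ.liftNormal E)⁻¹ (res59 hΦ (σ.liftNormal E) (lin L w a)) :=
    Subtype.ext (phi_inv59' Φ (σ.liftNormal E) _).symm
  rw [h2] at h1
  exact (FF.mem_img' (res59 hΦ _) _ (res59_const hΦ _) Q _).1 h1

/-- the coefficients have the properties of the conjugates -/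
theorem coef_nonunits [Algebra k U] [IsScalarTower k E U] [IsScalarTower k K0 U]
    (hΦ : Act (K0 := K0) r c Φ) [Normal k E] {S : Finset (Place E (L0 E K0 (U := U)))}
    (hS : ∀ Q ∈ S, ∀ g, mv59 hΦ g Q ∈ S) (L : IntermediateField k E) [FiniteDimensional k L]
    [IsGalois k L] {ι : Type} [Fintype ι] [DecidableEq ι] (w : Module.Basis ι k L) (a : ι → K0)
    (hy : ∀ Q ∈ S, lin L w a ∈ Q.ring.nonunits) :
    ∀ Q ∈ S, ∀ i, jj E K0 U (a i) ∈ Q.ring.nonunits := by
  intro Q hQ i
  rw [trace_formula hΦ L w a i]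
  refine sum_mem fun σ _ => FF.mul_mem_nonunits (Q.algebraMap_mem _) ?_
  have h1 := hy _ (hS Q hQ (σ.liftNormal E)⁻¹)
  have h2 : lin L w a = res59 hΦ (σ.liftNormal E)⁻¹ (res59 hΦ (σ.liftNormal E) (lin L w a)) :=
    Subtype.ext (phi_inv59' Φ (σ.liftNormal E) _).symm
  rw [h2] at h1
  exact (FF.nonunits_img (res59 hΦ _) _ (res59_const hΦ _) Q _).1 h1

/-- a function of `K0` with a pole at `b` -/
theorem exists_pole_K0 (hn : Normal K0 U) (b : Place E (L0 E K0 (U := U))) :
    ∃ t : K0, jj E K0 U t ∉ b.ring := by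
  by_contra hcon
  push Not at hcon
  apply b.ne_top
  rw [eq_top_iff]
  intro y _
  obtain ⟨f, hf⟩ := exists_sum hn y
  rw [hf]
  exact sum_mem fun e _ => b.ring.mul_mem _ _ (hcon _) (b.algebraMap_mem _)

variable [IsAlgClosed E]

/-- a finite stable set of places which contains `b` and all places with the same poles in `K0` -/
theorem exists_stable (hn : Normal K0 U) (hff : IsFunctionField E (L0 E K0 (U := U)))
    (hΦ : Act (K0 := K0) r c Φ) (b : Place E (L0 E K0 (U := U))) :
    ∃ S : Finset (Place E (L0 E K0 (U := U))), (∀ Q ∈ S, ∀ g, mv59 hΦ g Q ∈ S) ∧ b ∈ S ∧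
      ∀ b' : Place E (L0 E K0 (U := U)),
        (∀ x : K0, jj E K0 U x ∈ b.ring ↔ jj E K0 U x ∈ b'.ring) → b' ∈ S := by
  obtain ⟨t, ht⟩ := exists_pole_K0 hn b
  have ht0 : jj E K0 U t ≠ 0 := fun h0 => ht (by rw [h0]; exact b.ring.zero_mem)
  have hfin : {Q : Place E (L0 E K0 (U := U)) | jj E K0 U t ∉ Q.ring}.Finite := by
    refine (FF.finite_support_ord hff ht0).subset fun Q hQ h0 => hQ ?_
    rw [← FF.ord_nonneg_iff hff Q ht0, h0]
  refine ⟨hfin.toFinset, fun Q hQ g => ?_, ?_, fun b' hb' => ?_⟩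
  · rw [Set.Finite.mem_toFinset] at hQ ⊢
    intro h1
    apply hQ
    rw [← res_jj hΦ g t] at h1
    exact (FF.mem_img' (res59 hΦ g) _ (res59_const hΦ g) Q _).1 h1
  · rw [Set.Finite.mem_toFinset]
    exact ht
  · rw [Set.Finite.mem_toFinset]
    intro h1
    exact ht ((hb' t).2 h1)

/-- **A place is determined by its valuation ring and its residue map on `K0`.** -/
theorem place_inj [Algebra k U] [IsScalarTower k E U] [IsScalarTower k K0 U] [IsGalois k E]
    (hn : Normal K0 U) (hff : IsFunctionField E (L0 E K0 (U := U)))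
    (hΦ : Act (K0 := K0) r c Φ) {b b' : Place E (L0 E K0 (U := U))}
    (h1 : ∀ x : K0, jj E K0 U x ∈ b.ring ↔ jj E K0 U x ∈ b'.ring)
    (h2 : ∀ (x : K0) (e : E), jj E K0 U x - algebraMap E _ e ∈ b.ring.nonunits →
      jj E K0 U x - algebraMap E _ e ∈ b'.ring.nonunits) : b = b' := by
  classical
  by_contra hne
  obtain ⟨S, hS, hb, hS'⟩ := exists_stable hn hff hΦ b
  have hb' := hS' b' h1
  obtain ⟨z, hz⟩ := FF.approx hff S (fun Q => if Q = b then 1 else 0) 0
  obtain ⟨L, hL1, hL2, n, w, a, rfl⟩ := exists_decomp (k := k) hn z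
  have hz' : ∀ Q ∈ S, lin L w a - (if Q = b then 1 else 0) ∈ Q.ring.nonunits := fun Q hQ => by
    rw [← FF.val_lt_one_iff hff]
    exact hz Q hQ
  have hzm : ∀ Q ∈ S, lin L w a ∈ Q.ring := by
    intro Q hQ
    have h3 := ValuationSubring.nonunits_subset (hz' Q hQ)
    have h4 : (if Q = b then (1 : L0 E K0 (U := U)) else 0) ∈ Q.ring := by
      split_ifs
      · exact Q.ring.one_mem
      · exact Q.ring.zero_mem
    have h5 := Q.ring.add_mem _ _ h3 h4
    rwa [sub_add_cancel] at h5
  have hc := coef_mem hΦ hS L w a hzm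
  choose e he using fun m => FF.exists_residue hff b (hc b hb m)
  have key : ∀ Q : Place E (L0 E K0 (U := U)),
      (∀ m, jj E K0 U (a m) - algebraMap E _ (e m) ∈ Q.ring.nonunits) →
      lin L w a - algebraMap E _ (∑ m, e m * ((w m : L) : E)) ∈ Q.ring.nonunits := by
    intro Q hQ
    unfold lin
    rw [map_sum, ← Finset.sum_sub_distrib]
    refine sum_mem fun m _ => ?_
    rw [map_mul, ← sub_mul, mul_comm]
    exact FF.mul_mem_nonunits (Q.algebraMap_mem _) (hQ m)
  have k1 := key b he
  have k2 := key b' fun m => h2 _ _ (he m)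
  have z1 := hz' b hb
  have z2 := hz' b' hb'
  rw [if_pos rfl, ← map_one (algebraMap E (L0 E K0 (U := U)))] at z1
  rw [if_neg (fun h => hne h.symm), ← map_zero (algebraMap E (L0 E K0 (U := U)))] at z2
  have e1 := FF.residue_unique b k1 z1
  have e2 := FF.residue_unique b' k2 z2
  rw [e1] at e2
  exact one_ne_zero e2

/-- **The places are unramified over `K0`.** -/
theorem exists_unif [Algebra k U] [IsScalarTower k E U] [IsScalarTower k K0 U] [IsGalois k E]
    (hn : Normal K0 U) (hff : IsFunctionField E (L0 E K0 (U := U)))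
    (hΦ : Act (K0 := K0) r c Φ) (b : Place E (L0 E K0 (U := U))) :
    ∃ π : K0, π ≠ 0 ∧ ord b.ring (jj E K0 U π) = 1 := by
  classical
  obtain ⟨S, hS, hb, -⟩ := exists_stable hn hff hΦ b
  obtain ⟨u, hu0, hu⟩ := FF.exists_uniformizer hff b
  obtain ⟨z, hz⟩ := FF.approx hff S (fun Q => if Q = b then u else 0) (-1)
  obtain ⟨L, hL1, hL2, n, w, a, rfl⟩ := exists_decomp (k := k) hn z
  have hub : FF.val hff b u = WithZero.exp (-1 : ℤ) := by rw [FF.val_eq_exp hff b hu0, hu]
  have hzb : FF.val hff b (lin L w a) = WithZero.exp (-1 : ℤ) := by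
    have h1 := hz b hb
    rw [if_pos rfl] at h1
    have h2 : lin L w a = u + (lin L w a - u) := by ring
    rw [h2, Valuation.map_add_eq_of_lt_left _ (by rw [hub]; exact h1), hub]
  have hlt : (WithZero.exp (-1 : ℤ) : WithZero (Multiplicative ℤ)) < 1 := by
    rw [← WithZero.exp_zero, WithZero.exp_lt_exp]
    norm_num
  have hnon : ∀ Q ∈ S, lin L w a ∈ Q.ring.nonunits := by
    intro Q hQ
    rw [← FF.val_lt_one_iff hff]
    by_cases hQb : Q = b
    · rw [hQb, hzb]
      exact hlt
    · have h1 := hz Q hQ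
      rw [if_neg hQb, sub_zero] at h1
      exact h1.trans hlt
  have hc := coef_nonunits hΦ hS L w a hnon b hb
  have hex : ∃ m, ¬ FF.val hff b (jj E K0 U (a m)) < WithZero.exp (-1 : ℤ) := by
    by_contra hcon
    push Not at hcon
    have h1 : FF.val hff b (lin L w a) < WithZero.exp (-1 : ℤ) := by
      unfold lin
      refine Valuation.map_sum_lt _ (by exact WithZero.exp_ne_zero) fun m _ => ?_
      rw [map_mul]
      have h2 : FF.val hff b (algebraMap E (L0 E K0 (U := U)) ((w m : L) : E)) ≤ 1 :=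
        (FF.val_le_one_iff hff b _).2 (b.algebraMap_mem _)
      exact lt_of_le_of_lt (mul_le_of_le_one_right' h2) (hcon m)
    rw [hzb] at h1
    exact lt_irrefl _ h1
  obtain ⟨m, hm⟩ := hex
  have hm0 : jj E K0 U (a m) ≠ 0 := by
    intro h0
    rw [h0, map_zero] at hm
    exact hm (zero_lt_iff.2 WithZero.exp_ne_zero)
  refine ⟨a m, fun h0 => hm0 (by rw [h0, map_zero]), ?_⟩
  have h1 := (FF.ord_pos_iff hff b hm0).2 (hc m)
  rw [FF.val_eq_exp hff b hm0, WithZero.exp_lt_exp] at hm
  omega

/-! ### places from embeddings of residue fields -/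

omit [Algebra E U] [Algebra K0 U] [IsAlgClosed E] [Field U] in
/-- the kernel of the embedding of the residue field -/
theorem ker_phi [Algebra.IsAlgebraic k E] (P : ValuationSubring K0)
    (hc : ∀ a : k, algebraMap k K0 a ∈ P) (φ : P →+* E)
    (he : ∀ (a : k) (x : P), (x : K0) = algebraMap k K0 a → φ x = algebraMap k E a) (x : P)
    (hx : (x : K0) ∈ P.nonunits) : φ x = 0 := by
  by_contra h0
  let κ : k →+* P := (algebraMap k K0).codRestrict P hc
  have hκ : φ.comp κ = algebraMap k E := RingHom.ext fun a => he a (κ a) rfl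
  have hint : IsIntegral k (φ x) := Algebra.IsIntegral.isIntegral _
  let p := minpoly k (φ x)
  have hp0 : p.coeff 0 ≠ 0 := minpoly.coeff_zero_ne_zero hint h0
  have h1 : φ (Polynomial.eval₂ κ x p) = 0 := by
    rw [Polynomial.hom_eval₂, hκ]
    exact minpoly.aeval k (φ x)
  have h2 : Polynomial.eval₂ κ x p =
      Polynomial.eval₂ κ x p.divX * x + κ (p.coeff 0) := by
    conv_lhs => rw [← Polynomial.divX_mul_X_add p]
    rw [Polynomial.eval₂_add, Polynomial.eval₂_mul, Polynomial.eval₂_X, Polynomial.eval₂_C]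
  have hxm : x ∈ IsLocalRing.maximalIdeal P := ValuationSubring.coe_mem_nonunits_iff.1 hx
  have hu : Polynomial.eval₂ κ x p ∉ IsLocalRing.maximalIdeal P := by
    intro h3
    rw [h2] at h3
    have h4 : κ (p.coeff 0) ∈ IsLocalRing.maximalIdeal P :=
      (Ideal.add_mem_iff_right _ (Ideal.mul_mem_left _ _ hxm)).1 h3
    have h5 : IsUnit (κ (p.coeff 0)) := (isUnit_iff_ne_zero.2 hp0).map κ
    exact (IsLocalRing.mem_maximalIdeal _).1 h4 h5
  have h6 : IsUnit (Polynomial.eval₂ κ x p) := by
    by_contra h7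
    exact hu ((IsLocalRing.mem_maximalIdeal _).2 h7)
  exact (h6.map φ).ne_zero h1

omit [IsAlgClosed E] in
/-- **Every valuation ring of `K0` with an embedding of its residue field comes from a place.** -/
theorem exists_place_phi [Algebra k U] [IsScalarTower k E U] [IsScalarTower k K0 U]
    [IsGalois k E] (hΦ : Act (K0 := K0) r c Φ) (P : ValuationSubring K0) (hP : P ≠ ⊤)
    (hc : ∀ a : k, algebraMap k K0 a ∈ P) (φ : P →+* E)
    (he : ∀ (a : k) (x : P), (x : K0) = algebraMap k K0 a → φ x = algebraMap k E a) :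
    ∃ b : Place E (L0 E K0 (U := U)), (∀ x : K0, jj E K0 U x ∈ b.ring ↔ x ∈ P) ∧
      ∀ x : P, jj E K0 U x - algebraMap E _ (φ x) ∈ b.ring.nonunits := by
  classical
  have halg : Algebra.IsAlgebraic k E := inferInstance
  let κ : k →+* P := (algebraMap k K0).codRestrict P hc
  have hκ : ∀ a, φ (κ a) = algebraMap k E a := fun a => he a (κ a) rfl
  let jB : MonoidAlgebra E P →ₐ[E] L0 E K0 (U := U) :=
    MonoidAlgebra.lift E (L0 E K0 (U := U)) P (((jj E K0 U).comp P.subtype : P →+* _) : P →* _)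
  let ψB : MonoidAlgebra E P →ₐ[E] E := MonoidAlgebra.lift E E P (φ : P →* E)
  have hj1 : ∀ x : P, jB (MonoidAlgebra.of E P x) = jj E K0 U x := fun x =>
    MonoidAlgebra.lift_of _ _
  have hψ1 : ∀ x : P, ψB (MonoidAlgebra.of E P x) = φ x := fun x => MonoidAlgebra.lift_of _ _
  obtain ⟨b, hb1, hb2⟩ := FF.exists_place_of_hom (Ω := E) (M := L0 E K0 (U := U))
    (jB : MonoidAlgebra E P →+* _) (ψB : MonoidAlgebra E P →+* E)
    (fun a => ⟨algebraMap E _ a, jB.commutes a⟩) (by
      intro z hz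
      have h1 : jB z = 0 := hz
      change ψB z = 0
      rw [MonoidAlgebra.lift_apply, Finsupp.sum] at h1 ⊢
      obtain ⟨L, hL1, hL2, n, w, t, ht⟩ :=
        exists_basis (k := k) (z.coeff.support.image z.coeff)
      have h2 : ∀ x ∈ z.coeff.support,
          z.coeff x = ∑ m, algebraMap k E (t (z.coeff x) m) * ((w m : L) : E) := fun x hx =>
        ht _ (Finset.mem_image_of_mem _ hx)
      have h3 := lin_eq (U := U) L w z.coeff.support z.coeff (fun x : P => (x : K0))
        (fun x => t (z.coeff x)) h2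
      have h4 : ∑ x ∈ z.coeff.support, jj E K0 U (x : K0) *
          algebraMap E (L0 E K0 (U := U)) (z.coeff x) = 0 := by
        rw [← h1]
        refine Finset.sum_congr rfl fun x _ => ?_
        rw [Algebra.smul_def, mul_comm]
        rfl
      rw [h4] at h3
      have h5 := coef_zero hΦ L w _ h3.symm
      have h6 : ∀ m, ∑ x ∈ z.coeff.support, φ x * algebraMap k E (t (z.coeff x) m) = 0 := by
        intro m
        have h7 : ∑ x ∈ z.coeff.support, x * κ (t (z.coeff x) m) = 0 := by
          apply Subtype.ext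
          have h8 := h5 m
          change P.subtype _ = 0
          rw [map_sum]
          exact h8
        have h9 := congrArg φ h7
        rw [map_sum, map_zero] at h9
        simpa only [map_mul, hκ] using h9
      calc ∑ x ∈ z.coeff.support, z.coeff x • (φ x)
          = ∑ x ∈ z.coeff.support, ∑ m,
            ((w m : L) : E) * (φ x * algebraMap k E (t (z.coeff x) m)) := by
            refine Finset.sum_congr rfl fun x hx => ?_
            conv_lhs => rw [h2 x hx]
            rw [smul_eq_mul, Finset.sum_mul]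
            refine Finset.sum_congr rfl fun m _ => ?_
            ring
        _ = ∑ m, ((w m : L) : E) *
            ∑ x ∈ z.coeff.support, φ x * algebraMap k E (t (z.coeff x) m) := by
            rw [Finset.sum_comm]
            refine Finset.sum_congr rfl fun m _ => ?_
            rw [Finset.mul_sum]
        _ = 0 := by simp only [h6, mul_zero, Finset.sum_const_zero]) (by
      obtain ⟨t, ht⟩ : ∃ t : K0, t ∉ P := by
        by_contra hcon
        push Not at hcon
        exact hP (eq_top_iff.2 fun x _ => hcon x)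
      have ht0 : t ≠ 0 := by
        rintro rfl
        exact ht P.zero_mem
      have htn : t⁻¹ ∈ P.nonunits := by
        rw [ValuationSubring.mem_nonunits_iff_or, inv_inv]
        exact Or.inr ht
      let u : P := ⟨t⁻¹, ValuationSubring.nonunits_subset htn⟩
      refine ⟨MonoidAlgebra.of E P u, ?_, ?_⟩
      · change ψB _ = 0
        rw [hψ1]
        exact ker_phi P hc φ he u htn
      · change jB _ ≠ 0
        rw [hj1]
        exact (map_ne_zero _).2 (inv_ne_zero ht0))
  have hres : ∀ x : P, jj E K0 U x - algebraMap E _ (φ x) ∈ b.ring.nonunits := by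
    intro x
    have h1 := hb2 (MonoidAlgebra.of E P x - algebraMap E _ (φ x)) (by
      change ψB _ = 0
      rw [map_sub, hψ1, ψB.commutes]
      exact sub_self _)
    have h2 : jB (MonoidAlgebra.of E P x - algebraMap E _ (φ x)) =
        jj E K0 U x - algebraMap E _ (φ x) := by
      rw [map_sub, hj1, jB.commutes]
    rw [← h2]
    exact h1
  refine ⟨b, fun x => ⟨fun hx => ?_, fun hx => ?_⟩, hres⟩
  · by_contra hxP
    have hx0 : x ≠ 0 := by
      rintro rfl
      exact hxP P.zero_mem
    have hxn : x⁻¹ ∈ P.nonunits := by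
      rw [ValuationSubring.mem_nonunits_iff_or, inv_inv]
      exact Or.inr hxP
    have h1 := hres ⟨x⁻¹, ValuationSubring.nonunits_subset hxn⟩
    rw [ker_phi P hc φ he ⟨x⁻¹, _⟩ hxn, map_zero, sub_zero] at h1
    change jj E K0 U x⁻¹ ∈ b.ring.nonunits at h1
    rw [ValuationSubring.mem_nonunits_iff_or, map_inv₀, inv_inv] at h1
    rcases h1 with h1 | h1
    · exact (inv_ne_zero ((map_ne_zero _).2 hx0)) h1
    · exact h1 hx
  · have h1 := hb1 (MonoidAlgebra.of E P ⟨x, hx⟩)
    have h2 : jB (MonoidAlgebra.of E P ⟨x, hx⟩) ∈ b.ring := h1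
    rw [hj1] at h2
    exact h2

end

/-! ### the bijection -/

section

variable {k K0 E : Type} [Field k] [Field K0] [Field E] [Algebra k K0] [Algebra k E] {h : K0}

theorem gbr_ext {b b' : GBr k E h} (hP : ∀ x, x ∈ b.P ↔ x ∈ b'.P)
    (hφ : ∀ (x : K0) (hx : x ∈ b.P) (hx' : x ∈ b'.P), b.φ ⟨x, hx⟩ = b'.φ ⟨x, hx'⟩) : b = b' := by
  obtain ⟨P, φ, h1, h2, h3⟩ := b
  obtain ⟨P', φ', h1', h2', h3'⟩ := b'
  obtain rfl : P = P' := SetLike.ext hP
  obtain rfl : φ = φ' := RingHom.ext fun x => hφ x x.2 x.2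
  rfl

variable {U : Type} [Field U] [Algebra E U] [Algebra K0 U] [Algebra k U] [IsScalarTower k E U]
  [IsScalarTower k K0 U] [IsAlgClosed E]

omit [IsAlgClosed E] in
theorem mem_nonunits_comap (b : Place E (L0 E K0 (U := U))) (x : K0) :
    x ∈ (b.ring.comap (jj E K0 U)).nonunits ↔ jj E K0 U x ∈ b.ring.nonunits := by
  rw [ValuationSubring.mem_nonunits_iff_or, ValuationSubring.mem_nonunits_iff_or, ← map_inv₀,
    ValuationSubring.mem_comap, map_eq_zero]

/-- the branch point below a branch place -/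
def bt (hff : IsFunctionField E (L0 E K0 (U := U))) (hh0 : h ≠ 0)
    (b : {b : Place E (L0 E K0 (U := U)) // M.BPl h b}) : GBr k E h where
  P := b.1.ring.comap (jj E K0 U)
  φ := (FF.ev hff b.1).comp
    ((jj E K0 U).restrict (b.1.ring.comap (jj E K0 U)) b.1.ring fun _ hx => hx)
  const := fun a => by
    rw [ValuationSubring.mem_comap, jj_const]
    exact b.1.algebraMap_mem _
  odd := by
    intro z hz
    have hz0 : z ≠ 0 := by
      rintro rfl
      rw [map_zero, zero_pow two_ne_zero, Valuation.zero_iff] at hz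
      exact hh0 hz
    apply b.2
    have hv : (b.1.ring.comap (jj E K0 U)).valuation (h / z ^ 2) = 1 := by
      rw [map_div₀, hz, map_pow, div_self]
      exact pow_ne_zero _ ((Valuation.ne_zero_iff _).2 hz0)
    have h1 : jj E K0 U (h / z ^ 2) ∈ b.1.ring := by
      rw [← ValuationSubring.mem_comap, ← ValuationSubring.valuation_le_one_iff, hv]
    have h2 : jj E K0 U (h / z ^ 2) ∉ b.1.ring.nonunits := by
      rw [← mem_nonunits_comap, ValuationSubring.mem_nonunits_iff, hv]
      exact lt_irrefl _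
    have h3 : jj E K0 U (h / z ^ 2) ≠ 0 := (map_ne_zero _).2 (div_ne_zero hh0 (pow_ne_zero _ hz0))
    have h4 : ord b.1.ring (jj E K0 U (h / z ^ 2)) = 0 := by
      have h5 := (FF.ord_nonneg_iff hff b.1 h3).2 h1
      have h6 := mt (FF.ord_pos_iff hff b.1 h3).1 h2
      omega
    have hjz : jj E K0 U z ≠ 0 := (map_ne_zero _).2 hz0
    have hjh : jj E K0 U h ≠ 0 := (map_ne_zero _).2 hh0
    rw [map_div₀, map_pow, FF.ord_div hff b.1 hjh (pow_ne_zero _ hjz),
      FF.ord_pow hff b.1 hjz] at h4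
    rw [← jj_eq]
    exact ⟨ord b.1.ring (jj E K0 U z), by push_cast at h4; linarith⟩
  emb := fun a x hx => by
    rw [RingHom.comp_apply, FF.ev_eq_iff]
    change jj E K0 U (x : K0) - _ ∈ _
    rw [hx, jj_const, sub_self]
    exact zero_mem _

variable (hff : IsFunctionField E (L0 E K0 (U := U))) (hh0 : h ≠ 0)

theorem mem_bt (b : {b : Place E (L0 E K0 (U := U)) // M.BPl h b}) (x : K0) :
    x ∈ (bt (k := k) hff hh0 b).P ↔ jj E K0 U x ∈ b.1.ring := Iff.rfl

theorem bt_phi (b : {b : Place E (L0 E K0 (U := U)) // M.BPl h b}) (x : K0)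
    (hx : x ∈ (bt (k := k) hff hh0 b).P) (e : E) :
    (bt (k := k) hff hh0 b).φ ⟨x, hx⟩ = e ↔ jj E K0 U x - algebraMap E _ e ∈ b.1.ring.nonunits :=
  FF.ev_eq_iff hff b.1 ⟨jj E K0 U x, hx⟩ e

variable {r : U} {c : k} {Φ : (E ≃ₐ[k] E) →* (U ≃+* U)} (hΦ : Act (K0 := K0) r c Φ)

omit [Algebra k U] [IsScalarTower k E U] [IsScalarTower k K0 U] in
include hff in
theorem bpl_mv (g : E ≃ₐ[k] E) {b : Place E (L0 E K0 (U := U))} (hb : M.BPl h b) :
    M.BPl h (mv59 hΦ g b) := by
  have h1 : ord (mv59 hΦ g b).ring (inL0 (E := E) (U := U) h) =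
      ord b.ring (inL0 (E := E) (U := U) h) := by
    conv_lhs => rw [← res59_inL0 hΦ g h]
    exact FF.ord_img (res59 hΦ g) g.toRingEquiv (res59_const hΦ g) hff b _
  unfold BPl
  rw [h1]
  exact hb

theorem bt_mv (g : E ≃ₐ[k] E) (b : {b : Place E (L0 E K0 (U := U)) // M.BPl h b}) :
    bt (k := k) hff hh0 ⟨mv59 hΦ g b.1, bpl_mv hff hΦ g b.2⟩ = (bt (k := k) hff hh0 b).map g := by
  have hm : ∀ x : K0, jj E K0 U x ∈ (mv59 hΦ g b.1).ring ↔ jj E K0 U x ∈ b.1.ring := by
    intro x
    conv_lhs => rw [← res_jj hΦ g x]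
    exact FF.mem_img' (res59 hΦ g) _ (res59_const hΦ g) b.1 _
  refine gbr_ext (fun x => hm x) fun x hx hx' => ?_
  rw [bt_phi]
  change jj E K0 U x - algebraMap E _ (g ((bt (k := k) hff hh0 b).φ ⟨x, hx'⟩)) ∈ _
  have h1 := (bt_phi (k := k) hff hh0 b x hx' _).1 rfl
  have h2 := (FF.nonunits_img (res59 hΦ g) g.toRingEquiv (res59_const hΦ g) b.1 _).2 h1
  rw [map_sub, res_jj, res_alg] at h2
  exact h2

include hΦ in
theorem bt_inj [IsGalois k E] (hn : Normal K0 U) :
    Function.Injective (bt (k := k) (h := h) (U := U) hff hh0) := by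
  intro b b' hbb
  apply Subtype.ext
  have hP : ∀ x : K0, jj E K0 U x ∈ b.1.ring ↔ jj E K0 U x ∈ b'.1.ring := by
    intro x
    rw [← mem_bt (k := k) hff hh0, ← mem_bt (k := k) hff hh0, hbb]
  refine place_inj hn hff hΦ hP fun x e hx => ?_
  have hxb : jj E K0 U x ∈ b.1.ring := by
    have h1 := b.1.ring.add_mem _ _ (ValuationSubring.nonunits_subset hx) (b.1.algebraMap_mem e)
    rwa [sub_add_cancel] at h1
  have h1 := (bt_phi (k := k) hff hh0 b x hxb e).2 hx
  have h2 : ∀ (B B' : GBr k E h), B = B' → ∀ (hx : x ∈ B.P) (hx' : x ∈ B'.P),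
      B.φ ⟨x, hx⟩ = B'.φ ⟨x, hx'⟩ := by
    rintro B _ rfl _ _
    rfl
  have h3 := h2 _ _ hbb hxb ((hP x).1 hxb)
  rw [h1] at h3
  exact (bt_phi (k := k) hff hh0 b' x _ e).1 h3.symm

include hΦ in
theorem bt_surj [IsGalois k E] (hn : Normal K0 U) :
    Function.Surjective (bt (k := k) (h := h) (U := U) hff hh0) := by
  intro B
  have htop : B.P ≠ ⊤ := by
    intro htop
    have h1 := B.odd 1
    rw [map_one, one_pow] at h1
    apply h1
    have h2 : h ∈ B.P := by rw [htop]; trivial
    have h3 : h⁻¹ ∈ B.P := by rw [htop]; trivial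
    rw [← ValuationSubring.valuation_le_one_iff] at h2 h3
    rw [map_inv₀] at h3
    have h4 : B.P.valuation h ≠ 0 := (Valuation.ne_zero_iff _).2 hh0
    exact le_antisymm h2 ((inv_le_one₀ (zero_lt_iff.2 h4)).1 h3)
  obtain ⟨b, hb1, hb2⟩ := exists_place_phi (U := U) hΦ B.P htop B.const B.φ B.emb
  have hb : M.BPl h b := by
    rintro ⟨m, hm⟩
    obtain ⟨π, hπ0, hπ⟩ := exists_unif (k := k) hn hff hΦ b
    have hjπ : jj E K0 U π ≠ 0 := (map_ne_zero _).2 hπ0
    have hjh : jj E K0 U h ≠ 0 := (map_ne_zero _).2 hh0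
    have hz0 : π ^ m ≠ 0 := zpow_ne_zero _ hπ0
    have hjz : jj E K0 U (π ^ m) ≠ 0 := (map_ne_zero _).2 hz0
    apply B.odd (π ^ m)
    have h1 : ord b.ring (jj E K0 U (h / (π ^ m) ^ 2)) = 0 := by
      rw [map_div₀, map_pow, FF.ord_div hff b hjh (pow_ne_zero _ hjz), FF.ord_pow hff b hjz,
        map_zpow₀, FF.ord_zpow hff b hjπ, hπ, jj_eq, hm]
      push_cast
      ring
    have hq0 : jj E K0 U (h / (π ^ m) ^ 2) ≠ 0 :=
      (map_ne_zero _).2 (div_ne_zero hh0 (pow_ne_zero _ hz0))
    have h2 : h / (π ^ m) ^ 2 ∈ B.P := (hb1 _).1 ((FF.ord_nonneg_iff hff b hq0).1 h1.ge)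
    have h3 : (h / (π ^ m) ^ 2)⁻¹ ∈ B.P := by
      refine (hb1 _).1 ?_
      rw [map_inv₀, ← FF.ord_nonneg_iff hff b (inv_ne_zero hq0), FF.ord_inv hff b hq0, h1, neg_zero]
    rw [← ValuationSubring.valuation_le_one_iff] at h2 h3
    rw [map_inv₀] at h3
    have h4 : B.P.valuation (h / (π ^ m) ^ 2) ≠ 0 :=
      (Valuation.ne_zero_iff _).2 (div_ne_zero hh0 (pow_ne_zero _ hz0))
    have h5 : B.P.valuation (h / (π ^ m) ^ 2) = 1 :=
      le_antisymm h2 ((inv_le_one₀ (zero_lt_iff.2 h4)).1 h3)
    rw [map_div₀, map_pow, div_eq_one_iff_eq] at h5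
    · exact h5
    · exact pow_ne_zero _ ((Valuation.ne_zero_iff _).2 hz0)
  refine ⟨⟨b, hb⟩, gbr_ext (fun x => hb1 x) fun x hx hx' => ?_⟩
  rw [bt_phi]
  exact hb2 ⟨x, hx'⟩

end

/-- **BLOCK BIJ.** -/
theorem bIJ : StmtBIJ := by
  intro k K0 E U _ _ _ _ _ _ _ _ _ _ _ _ h r geo c Φ _ hΦ
  have hcl : IsAlgClosed E := geo.clE
  have halg : Algebra.IsAlgebraic k E := geo.algE
  have hch : CharZero E := charZero_of_injective_algebraMap (algebraMap k E).injective
  have hgal : IsGalois k E := by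
    have h1 : IsAlgClosure k E := ⟨hcl, halg⟩
    exact ⟨⟩
  have hh0 : h ≠ 0 := by
    rintro rfl
    have h1 := geo.rsq
    rw [map_zero] at h1
    have h2 : r = 0 := pow_eq_zero_iff two_ne_zero |>.1 h1
    exact geo.rnot (by rw [h2]; exact zero_mem _)
  have hbij : Function.Bijective (bt (k := k) (h := h) (U := U) geo.ff hh0) :=
    ⟨bt_inj geo.ff hh0 hΦ geo.normal, bt_surj geo.ff hh0 hΦ geo.normal⟩
  refine ⟨Equiv.ofBijective _ hbij, fun g b b' => ?_⟩
  rw [moves_iff59 hΦ]
  change _ ↔ (bt (k := k) geo.ff hh0 b).map g = bt (k := k) geo.ff hh0 b'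
  rw [← bt_mv geo.ff hh0 hΦ g b]
  constructor
  · intro h1
    congr 1
    exact Subtype.ext h1.symm
  · intro h1
    exact (congrArg Subtype.val (bt_inj geo.ff hh0 hΦ geo.normal h1)).symm

end

end Pool.Agent.MP
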